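import Mathlib
import Pool.Agent.Helper565.QWi

/-!
Statements of the pieces of the proof that the largest injectivity index is `D * D - D + 1`.
-/

namespace Pool.Agent.Y659.MPS

open Matrix
open Pool.Agent.Results.MP_8bfff4_mp.ExactValue

/-- the exceptional situation, with a generic unit -/
structure Exc {D : ℕ} (W : Submodule ℂ (Matrix (Fin D) (Fin D) ℂ))
    (X : Matrix (Fin D) (Fin D) ℂ) : Prop where
  hD : 5 ≤ D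
  hX : X ∈ W
  hXu : IsUnit X
  htop : W ^ (D * D - D + 2) = ⊤
  hmin : ∀ i, i < D * D - D + 2 → W ^ i ≠ ⊤
  hgood : ∀ n, 1 ≤ n → n < D * D - D + 1 →
    fr (W ^ n) < fr (ln X * W ^ n ⊔ W ^ n * ln X)

/-- equalities in the count -/
def St_EQ : Prop :=
  ∀ (D : ℕ) (W : Submodule ℂ (Matrix (Fin D) (Fin D) ℂ)) (X : Matrix (Fin D) (Fin D) ℂ),
    Exc W X → ∀ n, 1 ≤ n → n < D * D - D + 1 →
      fr (ln X * W ^ n ⊔ W ^ n * ln X) = fr (W ^ n) + 1 ∧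
      fr (W ^ n ⊓ LinearMap.ker (adL X)) + n = fr (W ^ n)

/-- growth of `W ^ k * ln η` for `η` commuting with `X` -/
def St_U1G : Prop :=
  ∀ (D : ℕ) (W : Submodule ℂ (Matrix (Fin D) (Fin D) ℂ)) (X η : Matrix (Fin D) (Fin D) ℂ)
    (N : ℕ), X ∈ W → IsUnit X → W ^ N = ⊤ → X * η = η * X → η ≠ 0 →
    ∀ k : ℕ, min (k + 1) (D * η.rank) ≤ fr (W ^ k * ln η)

/-- a rank one element commuting with `X` -/
def St_U1R : Prop :=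
  ∀ (D : ℕ) (W : Submodule ℂ (Matrix (Fin D) (Fin D) ℂ)) (X η : Matrix (Fin D) (Fin D) ℂ)
    (N m : ℕ), 1 ≤ D → X ∈ W → IsUnit X → W ^ N = ⊤ → X * η = η * X → η.rank = 1 →
    X ^ m * η ∈ W ^ m → W ^ (m + 2 * (D - 1)) = ⊤

/-- the filtration count -/
def St_U1F : Prop :=
  ∀ (D v r : ℕ) (V : Submodule ℂ (Matrix (Fin D) (Fin D) ℂ)) (g : Matrix (Fin D) (Fin D) ℂ)
    (κ : Fin v → ℂ),
    Polynomial.aeval g (∏ i, (Polynomial.X - Polynomial.C (κ i))) = 0 →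
    (∀ j, r ≤ fr (V * ln (Polynomial.aeval g
      (∏ i ∈ Finset.univ.erase j, (Polynomial.X - Polynomial.C (κ i)))))) →
    r * v ≤ fr (⨆ i : Fin v, V * ln (g ^ (i : ℕ)))

/-- powers of `g` in the centraliser -/
def St_U1A : Prop :=
  ∀ (D : ℕ) (W : Submodule ℂ (Matrix (Fin D) (Fin D) ℂ)) (X g : Matrix (Fin D) (Fin D) ℂ)
    (m : ℕ), 2 ≤ D → X ∈ W → IsUnit X → X * g = g * X → X ^ m * g ∈ W ^ m →
    D ≤ (minpoly ℂ g).natDegree + 1 →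
    D ≤ fr (W ^ ((D - 2) * m) ⊓ LinearMap.ker (adL X)) + 1

/-- the powers up to `D` have the smallest dimension -/
def St_U1 : Prop :=
  ∀ (D : ℕ) (W : Submodule ℂ (Matrix (Fin D) (Fin D) ℂ)) (X : Matrix (Fin D) (Fin D) ℂ),
    Exc W X →
    (∀ n, 1 ≤ n → n < D * D - D + 1 → fr (W ^ n ⊓ LinearMap.ker (adL X)) + n = fr (W ^ n)) →
    (∀ n, n ≤ D * D - D + 1 → fr (W ^ n) + 2 ≤ n + D) →
    ∀ n, n ≤ D → fr (W ^ n) = n + 1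

/-- the small powers -/
structure Flat {D : ℕ} (W : Submodule ℂ (Matrix (Fin D) (Fin D) ℂ))
    (X : Matrix (Fin D) (Fin D) ℂ) : Prop where
  hD : 2 ≤ D
  hX : X ∈ W
  hXu : IsUnit X
  hd : ∀ n, n ≤ D → fr (W ^ n) = n + 1
  he : ∀ n, 1 ≤ n → n ≤ D → fr (ln X * W ^ n ⊔ W ^ n * ln X) = n + 2
  hN : ∃ N, W ^ N = ⊤

/-- rank condition on spanning pairs -/
def RankSum {D : ℕ} (W : Submodule ℂ (Matrix (Fin D) (Fin D) ℂ)) : Prop :=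
  ∀ v ∈ W, ∀ w ∈ W, v ≠ 0 → w ≠ 0 → W ≤ Submodule.span ℂ {v, w} → D + 1 ≤ v.rank + w.rank

/-- basis of the small powers -/
def St_Basis : Prop :=
  ∀ (D : ℕ) (W : Submodule ℂ (Matrix (Fin D) (Fin D) ℂ)) (X w : Matrix (Fin D) (Fin D) ℂ),
    Flat W X → w ∈ W → W ≤ Submodule.span ℂ {X, w} → ∀ n, n ≤ D →
    (∀ A ∈ W ^ n, ∃ (a : ℕ → ℂ) (b : ℂ),
      A = ∑ j ∈ Finset.range n, a j • (X ^ (n - 1 - j) * w * X ^ j) + b • X ^ n) ∧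
    (∀ (a : ℕ → ℂ) (b : ℂ),
      ∑ j ∈ Finset.range n, a j • (X ^ (n - 1 - j) * w * X ^ j) + b • X ^ n = 0 →
      (∀ j, j < n → a j = 0) ∧ b = 0)

/-- the first nonvanishing `w X^(c-1) w` -/
def St_S3A : Prop :=
  ∀ (D : ℕ) (W : Submodule ℂ (Matrix (Fin D) (Fin D) ℂ)) (X w : Matrix (Fin D) (Fin D) ℂ)
    (N : ℕ), X ∈ W → IsUnit X → W ^ N = ⊤ → w ∈ W → W ≤ Submodule.span ℂ {X, w} → w ≠ 0 →
    w * w = 0 → 2 ≤ w.rank →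
    ∃ c, 2 ≤ c ∧ c + 2 ≤ D ∧ (∀ i, i + 2 ≤ c → w * X ^ i * w = 0) ∧ w * X ^ (c - 1) * w ≠ 0

/-- the case `α ≠ 0` -/
def St_S3B : Prop :=
  ∀ (D : ℕ) (X w : Matrix (Fin D) (Fin D) ℂ) (c : ℕ) (a : ℕ → ℂ) (α : ℂ),
    IsUnit X → w ≠ 0 → 2 ≤ c → (∀ i, i + 2 ≤ c → w * X ^ i * w = 0) →
    (∀ (b : ℕ → ℂ) (β : ℂ),
      ∑ j ∈ Finset.range (c + 2), b j • (X ^ (c + 1 - j) * w * X ^ j) + β • X ^ (c + 2) = 0 →
      (∀ j, j < c + 2 → b j = 0) ∧ β = 0) →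
    w * X ^ (c - 1) * w =
      ∑ j ∈ Finset.range (c + 1), a j • (X ^ (c - j) * w * X ^ j) + α • X ^ (c + 1) →
    α ≠ 0 →
    ∃ s : ℂ, s ≠ 0 ∧ (X - s • w) ^ (c + 1) = 0

/-- the case `α = 0` -/
def St_S3C : Prop :=
  ∀ (D : ℕ) (W : Submodule ℂ (Matrix (Fin D) (Fin D) ℂ)) (X w : Matrix (Fin D) (Fin D) ℂ)
    (N c : ℕ) (a : ℕ → ℂ), X ∈ W → IsUnit X → 1 ≤ N → W ^ N = ⊤ → RankSum W → w ∈ W →
    W ≤ Submodule.span ℂ {X, w} → w ≠ 0 → 2 ≤ c → (∀ i, i + 2 ≤ c → w * X ^ i * w = 0) →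
    w * X ^ (c - 1) * w ≠ 0 →
    w * X ^ (c - 1) * w = ∑ j ∈ Finset.range (c + 1), a j • (X ^ (c - j) * w * X ^ j) →
    False

/-- the normal form of the spanning pair -/
structure Pair {D : ℕ} (W : Submodule ℂ (Matrix (Fin D) (Fin D) ℂ))
    (X x y : Matrix (Fin D) (Fin D) ℂ) (c : ℕ) : Prop where
  hxy : x + y = X
  hx : x ∈ W
  hy : y ∈ W
  hx0 : x ≠ 0
  hy0 : y ≠ 0
  hW : W ≤ Submodule.span ℂ {x, y}
  hc2 : 2 ≤ c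
  hcD : c + 2 ≤ D
  hxx : ∀ i, i + 2 ≤ c → x * X ^ i * x = 0
  hyc : y ^ (c + 1) = 0

/-- the start of the level argument -/
def St_S3 : Prop :=
  ∀ (D : ℕ) (W : Submodule ℂ (Matrix (Fin D) (Fin D) ℂ)) (X w : Matrix (Fin D) (Fin D) ℂ),
    Flat W X → RankSum W → w ∈ W → W ≤ Submodule.span ℂ {X, w} → w ≠ 0 → w * w = 0 →
    2 ≤ w.rank → ∃ (x y : Matrix (Fin D) (Fin D) ℂ) (c : ℕ), Pair W X x y c

/-- the ranges of `x` and `y` meet -/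
def St_T : Prop :=
  ∀ (D : ℕ) (x y : Matrix (Fin D) (Fin D) ℂ), D + 1 ≤ x.rank + y.rank →
    ∃ t v₁ v₂ : Matrix (Fin D) (Fin D) ℂ, t ≠ 0 ∧ t = x * v₁ ∧ t = y * v₂

/-- a level: `m` plays the role of a central word with periods `p + 1` and `q + 1` -/
structure Lev {D : ℕ} (W : Submodule ℂ (Matrix (Fin D) (Fin D) ℂ))
    (X Xi x y m : Matrix (Fin D) (Fin D) ℂ) (p q : ℕ)
    (la lb : ℕ → Matrix (Fin D) (Fin D) ℂ) : Prop where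
  hm : m ∈ W ^ (p + q)
  cx : X ^ p * x * m = m * x * X ^ p
  cy : X ^ q * y * m = m * y * X ^ q
  ha : ∀ i, i < p → (la i = x ∨ la i = y) ∧ la i * X ^ i * x * m = 0 ∧
    m * x * X ^ i * la i = 0
  hb : ∀ i, i < q → (lb i = x ∨ lb i = y) ∧ lb i * X ^ i * y * m = 0 ∧
    m * y * X ^ i * lb i = 0
  la0 : 1 ≤ p → la 0 = x
  lb0 : 1 ≤ q → lb 0 = y
  ia : ∀ j, j < p → X ^ j * x * m * Xi ^ (j + 1) ∈ W ^ (p + q)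
  ib : ∀ j, j < q → X ^ j * y * m * Xi ^ (j + 1) ∈ W ^ (p + q)
  sp : ∀ U : Submodule ℂ (Matrix (Fin D) (Fin D) ℂ), m ∈ U →
    (∀ j, j < p → X ^ j * x * m * Xi ^ (j + 1) ∈ U) →
    (∀ j, j < q → X ^ j * y * m * Xi ^ (j + 1) ∈ U) → W ^ (p + q) ≤ U

/-- the periodicity of the dead letters -/
def Inv {D : ℕ} (x y : Matrix (Fin D) (Fin D) ℂ) (p q : ℕ)
    (la lb : ℕ → Matrix (Fin D) (Fin D) ℂ) : Prop :=
  p ≠ q ∧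
  (q < p → (∀ i, i + q + 1 < p → la (i + q + 1) = la i) ∧ la (p - q - 1) = x ∧
    ∀ s, s < q → la (p - q + s) = lb s) ∧
  (p < q → (∀ i, i + p + 1 < q → lb (i + p + 1) = lb i) ∧ lb (q - p - 1) = y ∧
    ∀ s, s < p → lb (q - p + s) = la s)

/-- the orbit of `t` up to the level -/
def Lt {D : ℕ} (X x y m t : Matrix (Fin D) (Fin D) ℂ) (p q : ℕ) : Prop :=
  m * t = X ^ (p + q) * t ∧ ∀ j, j < p + q → x * X ^ j * t = 0 ∨ y * X ^ j * t = 0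

/-- the first level -/
def St_Start : Prop :=
  ∀ (D : ℕ) (W : Submodule ℂ (Matrix (Fin D) (Fin D) ℂ))
    (X Xi x y t v₁ : Matrix (Fin D) (Fin D) ℂ) (c : ℕ), Flat W X → X * Xi = 1 → Xi * X = 1 →
    Pair W X x y c → t = x * v₁ →
    Lev W X Xi x y (y ^ (c - 1)) (c - 1) 0 (fun _ => x) (fun _ => y) ∧
    Inv x y (c - 1) 0 (fun _ => x) (fun _ => y) ∧ Lt X x y (y ^ (c - 1)) t (c - 1) 0

/-- the new letters -/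
def stepLa {D : ℕ} (x : Matrix (Fin D) (Fin D) ℂ) (p : ℕ)
    (la lb : ℕ → Matrix (Fin D) (Fin D) ℂ) : ℕ → Matrix (Fin D) (Fin D) ℂ :=
  fun i => if i < p then la i else if i = p then x else lb (i - p - 1)

/-- from a level to the next one -/
def St_StepLev : Prop :=
  ∀ (D : ℕ) (W : Submodule ℂ (Matrix (Fin D) (Fin D) ℂ))
    (X Xi x y m : Matrix (Fin D) (Fin D) ℂ) (p q : ℕ)
    (la lb : ℕ → Matrix (Fin D) (Fin D) ℂ), X ∈ W → x ∈ W → y ∈ W → X * Xi = 1 →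
    Xi * X = 1 → x + y = X → 1 ≤ p + q →
    (∀ k, p + q ≤ k → k + 1 ≤ p + 2 * q + 1 → W ^ (k + 1) ≤ ln X * W ^ k ⊔ W ^ k * ln X) →
    Lev W X Xi x y m p q la lb → x * m * x = 0 →
    Lev W X Xi x y (X ^ q * y * m) (p + q + 1) q (stepLa x p la lb) lb

/-- the letters at the next level -/
def St_StepInv : Prop :=
  ∀ (D : ℕ) (x y : Matrix (Fin D) (Fin D) ℂ) (p q : ℕ)
    (la lb : ℕ → Matrix (Fin D) (Fin D) ℂ), Inv x y p q la lb →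
    Inv x y (p + q + 1) q (stepLa x p la lb) lb

/-- the orbit of `t` at the next level -/
def St_StepLt : Prop :=
  ∀ (D : ℕ) (W : Submodule ℂ (Matrix (Fin D) (Fin D) ℂ))
    (X Xi x y m t v₁ v₂ : Matrix (Fin D) (Fin D) ℂ) (p q : ℕ)
    (la lb : ℕ → Matrix (Fin D) (Fin D) ℂ), x + y = X → t = x * v₁ → t = y * v₂ →
    Lev W X Xi x y m p q la lb → x * m * x = 0 → Lt X x y m t p q →
    Lt X x y (X ^ q * y * m) t (p + q + 1) q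

/-- the last step -/
def St_S5 : Prop :=
  ∀ (D : ℕ) (W : Submodule ℂ (Matrix (Fin D) (Fin D) ℂ))
    (X x y t v₁ v₂ : Matrix (Fin D) (Fin D) ℂ) (c N : ℕ), 2 ≤ c → c + 2 ≤ D → IsUnit X →
    x + y = X → W ≤ Submodule.span ℂ {x, y} → W ^ N = ⊤ →
    (∀ i, i + 2 ≤ c → x * X ^ i * x = 0) → y ^ (c + 1) = 0 →
    t ≠ 0 → t = x * v₁ → t = y * v₂ →
    (∀ j, j + 2 ≤ D → x * X ^ j * t = 0 ∨ y * X ^ j * t = 0) → False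

/-- a relation in `W ^ (p + q + 2)`, with `y` dead -/
def Rel {D : ℕ} (X Xi x y m : Matrix (Fin D) (Fin D) ℂ) (p q : ℕ) (c cxy cyy : ℂ)
    (α β : ℕ → ℂ) : Prop :=
  (c ≠ 0 ∨ cxy ≠ 0 ∨ cyy ≠ 0 ∨ (∃ j, 1 ≤ j ∧ j ≤ p ∧ α j ≠ 0) ∨
    (∃ j, 1 ≤ j ∧ j ≤ q ∧ β j ≠ 0)) ∧ α p = 0 ∧
  c • (X * m * x) + cxy • (x * m * y) + cyy • (y * m * y) +
    ∑ j ∈ Finset.Icc 1 p, α j • (X ^ j * x * m * Xi ^ (j - 1)) +
    ∑ j ∈ Finset.Icc 1 q, β j • (X ^ j * y * m * Xi ^ (j - 1)) = 0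

/-- existence of the relation -/
def St_KLA : Prop :=
  ∀ (D : ℕ) (W : Submodule ℂ (Matrix (Fin D) (Fin D) ℂ))
    (X Xi x y m : Matrix (Fin D) (Fin D) ℂ) (p q : ℕ)
    (la lb : ℕ → Matrix (Fin D) (Fin D) ℂ), Flat W X → x ∈ W → y ∈ W → X * Xi = 1 →
    Xi * X = 1 → x + y = X → 1 ≤ p → 1 ≤ q → p + q + 2 ≤ D → Lev W X Xi x y m p q la lb →
    (∃ (c cxy cyy : ℂ) (α β : ℕ → ℂ), Rel X Xi x y m p q c cxy cyy α β) ∨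
    (∃ (c cxy cyy : ℂ) (α β : ℕ → ℂ), Rel X Xi y x m q p c cxy cyy α β)

/-- `m X^s t` for an integer `s` -/
noncomputable def G {D : ℕ} (u : (Matrix (Fin D) (Fin D) ℂ)ˣ) (m t : Matrix (Fin D) (Fin D) ℂ)
    (s : ℤ) : Matrix (Fin D) (Fin D) ℂ :=
  m * ((u ^ s : (Matrix (Fin D) (Fin D) ℂ)ˣ) : Matrix (Fin D) (Fin D) ℂ) * t

/-- facts on `G` -/
def St_KLG : Prop :=
  ∀ (D : ℕ) (W : Submodule ℂ (Matrix (Fin D) (Fin D) ℂ)) (u : (Matrix (Fin D) (Fin D) ℂ)ˣ)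
    (x y m t v₁ v₂ : Matrix (Fin D) (Fin D) ℂ) (p q : ℕ)
    (la lb : ℕ → Matrix (Fin D) (Fin D) ℂ), x + y = (u : Matrix (Fin D) (Fin D) ℂ) →
    Lev W (u : Matrix (Fin D) (Fin D) ℂ)
      ((u⁻¹ : (Matrix (Fin D) (Fin D) ℂ)ˣ) : Matrix (Fin D) (Fin D) ℂ) x y m p q la lb →
    t = x * v₁ → t = y * v₂ →
    (∀ s : ℤ, G u m t s = (u : Matrix (Fin D) (Fin D) ℂ) ^ p * x * G u m t (s - (p + 1)) +
      (u : Matrix (Fin D) (Fin D) ℂ) ^ q * y * G u m t (s - (q + 1))) ∧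
    (∀ s : ℕ, 1 ≤ s → s ≤ p → x * G u m t (-(s : ℤ)) = 0) ∧
    (∀ s : ℕ, 1 ≤ s → s ≤ q → y * G u m t (-(s : ℤ)) = 0) ∧
    (∀ (c cxy cyy : ℂ) (α β : ℕ → ℂ),
      Rel (u : Matrix (Fin D) (Fin D) ℂ)
        ((u⁻¹ : (Matrix (Fin D) (Fin D) ℂ)ˣ) : Matrix (Fin D) (Fin D) ℂ) x y m p q c cxy cyy α β →
      ∀ s : ℤ, c • ((u : Matrix (Fin D) (Fin D) ℂ) ^ (p + 1) * x * G u m t (s - (p + 1))) +
        (cxy • x + cyy • y) * (u : Matrix (Fin D) (Fin D) ℂ) ^ q * y * G u m t (s - (q + 1)) +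
        ∑ j ∈ Finset.Icc 1 p,
          α j • ((u : Matrix (Fin D) (Fin D) ℂ) ^ j * x * G u m t (s - j)) +
        ∑ j ∈ Finset.Icc 1 q,
          β j • ((u : Matrix (Fin D) (Fin D) ℂ) ^ j * y * G u m t (s - j)) = 0)

/-- the equations on a sequence `g` -/
structure Core {D : ℕ} (X x y : Matrix (Fin D) (Fin D) ℂ) (g : ℤ → Matrix (Fin D) (Fin D) ℂ)
    (p q : ℕ) (c cxy cyy : ℂ) (α β : ℕ → ℂ) : Prop where
  hp : 1 ≤ p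
  hq : 1 ≤ q
  hpq : p ≠ q
  hX : IsUnit X
  hxy : x + y = X
  hg : ∀ s : ℤ, g s = X ^ p * x * g (s - (p + 1)) + X ^ q * y * g (s - (q + 1))
  hx : ∀ s : ℕ, 1 ≤ s → s ≤ p → x * g (-(s : ℤ)) = 0
  hy : ∀ s : ℕ, 1 ≤ s → s ≤ q → y * g (-(s : ℤ)) = 0
  heq : ∀ s : ℤ, c • (X ^ (p + 1) * x * g (s - (p + 1))) +
    (cxy • x + cyy • y) * X ^ q * y * g (s - (q + 1)) +
    ∑ j ∈ Finset.Icc 1 p, α j • (X ^ j * x * g (s - j)) +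
    ∑ j ∈ Finset.Icc 1 q, β j • (X ^ j * y * g (s - j)) = 0
  hα : α p = 0

/-- case `y g(0) = 0` -/
def St_Core1 : Prop :=
  ∀ (D : ℕ) (X x y : Matrix (Fin D) (Fin D) ℂ) (g : ℤ → Matrix (Fin D) (Fin D) ℂ)
    (p q : ℕ) (c cxy cyy : ℂ) (α β : ℕ → ℂ), Core X x y g p q c cxy cyy α β →
    x * g 0 ≠ 0 → y * g 0 = 0 → (∃ i : ℕ, y * g ((i : ℤ) * (p + 1)) ≠ 0) →
    c = 0 ∧ (∀ j, 1 ≤ j → j ≤ p → α j = 0) ∧ (∀ j, 1 ≤ j → j ≤ q → β j = 0)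

/-- case `y g(0) ≠ 0` -/
def St_Core2 : Prop :=
  ∀ (D : ℕ) (X x y : Matrix (Fin D) (Fin D) ℂ) (g : ℤ → Matrix (Fin D) (Fin D) ℂ)
    (p q : ℕ) (c cxy cyy : ℂ) (α β : ℕ → ℂ), Core X x y g p q c cxy cyy α β →
    y * g 0 ≠ 0 → (x * g 0 ≠ 0 → ∀ r s : ℂ, r • (x * g 0) + s • (y * g 0) = 0 → r = 0 ∧ s = 0) →
    (∃ i : ℕ, x * g ((i : ℤ) * (q + 1)) ≠ 0) →
    (∀ j, 1 ≤ j → j ≤ q → β j = 0) ∧ (∀ j, 1 ≤ j → j ≤ p → ¬ (q + 1) ∣ j → α j = 0) ∧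
    (∃ i : ℕ, x * g ((i : ℤ) * (q + 1)) ≠ 0 ∧
      (1 ≤ i → x * g ((i : ℤ) * (q + 1)) =
        x * X ^ q * y * g (((i : ℤ) - 1) * (q + 1))))

/-- the orbit of `t` cannot die everywhere -/
def St_KLE : Prop :=
  ∀ (D : ℕ) (W : Submodule ℂ (Matrix (Fin D) (Fin D) ℂ)) (u : (Matrix (Fin D) (Fin D) ℂ)ˣ)
    (x y m t v₁ v₂ : Matrix (Fin D) (Fin D) ℂ) (p q N : ℕ)
    (la lb : ℕ → Matrix (Fin D) (Fin D) ℂ), 2 ≤ D → 1 ≤ p → 1 ≤ q → W ^ N = ⊤ →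
    W ≤ Submodule.span ℂ {x, y} →
    x + y = (u : Matrix (Fin D) (Fin D) ℂ) →
    Lev W (u : Matrix (Fin D) (Fin D) ℂ)
      ((u⁻¹ : (Matrix (Fin D) (Fin D) ℂ)ˣ) : Matrix (Fin D) (Fin D) ℂ) x y m p q la lb →
    t ≠ 0 → t = x * v₁ → t = y * v₂ → Lt (u : Matrix (Fin D) (Fin D) ℂ) x y m t p q →
    ∃ i : ℕ, y * G u m t ((i : ℤ) * (p + 1)) ≠ 0

/-- end of the first case -/
def St_Fin1 : Prop :=
  ∀ (D : ℕ) (W : Submodule ℂ (Matrix (Fin D) (Fin D) ℂ))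
    (X Xi x y m t v₁ v₂ : Matrix (Fin D) (Fin D) ℂ) (p q : ℕ) (c cxy cyy : ℂ) (α β : ℕ → ℂ)
    (la lb : ℕ → Matrix (Fin D) (Fin D) ℂ), X * Xi = 1 → Xi * X = 1 → x + y = X →
    1 ≤ p → 1 ≤ q → Lev W X Xi x y m p q la lb → t = x * v₁ → t = y * v₂ →
    Rel X Xi x y m p q c cxy cyy α β →
    x * (m * t) ≠ 0 → y * (m * t) = 0 →
    c = 0 → (∀ j, 1 ≤ j → j ≤ p → α j = 0) → (∀ j, 1 ≤ j → j ≤ q → β j = 0) →
    y * m * y = 0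

/-- end of the second case -/
def St_Fin2 : Prop :=
  ∀ (D : ℕ) (W : Submodule ℂ (Matrix (Fin D) (Fin D) ℂ))
    (X Xi x y m : Matrix (Fin D) (Fin D) ℂ) (p q : ℕ) (c cxy cyy : ℂ) (α β : ℕ → ℂ)
    (la lb : ℕ → Matrix (Fin D) (Fin D) ℂ), X * Xi = 1 → Xi * X = 1 → x + y = X →
    1 ≤ p → 1 ≤ q → Lev W X Xi x y m p q la lb → Inv x y p q la lb →
    Rel X Xi x y m p q c cxy cyy α β → (∀ j, 1 ≤ j → j ≤ q → β j = 0) →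
    (∀ j, 1 ≤ j → j ≤ p → ¬ (q + 1) ∣ j → α j = 0) →
    x * m * x ≠ 0 → y * m * y ≠ 0 → x * m * y = 0

/-- the key lemma -/
def St_KL : Prop :=
  ∀ (D : ℕ) (W : Submodule ℂ (Matrix (Fin D) (Fin D) ℂ))
    (X Xi x y m t v₁ v₂ : Matrix (Fin D) (Fin D) ℂ) (p q : ℕ)
    (la lb : ℕ → Matrix (Fin D) (Fin D) ℂ), Flat W X → x ∈ W → y ∈ W →
    W ≤ Submodule.span ℂ {x, y} → X * Xi = 1 → Xi * X = 1 → x + y = X → 1 ≤ p → 1 ≤ q →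
    p + q + 2 ≤ D → Lev W X Xi x y m p q la lb → Inv x y p q la lb → t ≠ 0 → t = x * v₁ →
    t = y * v₂ → Lt X x y m t p q → x * m * x = 0 ∨ y * m * y = 0

end Pool.Agent.Y659.MPS
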