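import Mathlib
import Pool.Agent.Y659.MPS.Stm
import Pool.Agent.Y461.MPS.Pw
import Pool.Agent.Y297.MPS.Basis

/-!
The first level.
-/

namespace Pool.Agent.Y659.MPS

open Matrix
open Pool.Agent.Results.MP_8bfff4_mp.ExactValue

/-- cancelling powers of the inverse -/
theorem pow_mul_inv {D : ℕ} {X Xi : Matrix (Fin D) (Fin D) ℂ} (h : X * Xi = 1) :
    ∀ k : ℕ, X ^ k * Xi ^ k = 1
  | 0 => by simp
  | k + 1 => by
      rw [pow_succ, pow_succ' Xi, mul_assoc, ← mul_assoc X Xi, h, one_mul, pow_mul_inv h k]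

/-- the first level -/
theorem Start : St_Start := by
  intro D W X Xi x y t v₁ c hFl hXi hiX hP ht
  have hc2 := hP.hc2
  have hcD := hP.hcD
  have hpw := Y461.MPS.pow_form X x y c hP.hxy hP.hxx (c - 1) (by omega)
  have hxm : x * y ^ (c - 1) = x * X ^ (c - 1) := by
    rw [hpw, mul_sub, Finset.mul_sum, Finset.sum_eq_zero, sub_zero]
    intro j hj
    rw [Finset.mem_range] at hj
    rw [← mul_assoc, ← mul_assoc, hP.hxx _ (by omega), zero_mul]
  have hmx : y ^ (c - 1) * x = X ^ (c - 1) * x := by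
    rw [hpw, sub_mul, Finset.sum_mul, Finset.sum_eq_zero, sub_zero]
    intro j hj
    rw [Finset.mem_range] at hj
    rw [mul_assoc, mul_assoc, ← mul_assoc x, hP.hxx _ (by omega), mul_zero]
  have hw : ∀ j, j < c - 1 → X ^ j * x * y ^ (c - 1) * Xi ^ (j + 1) =
      X ^ j * x * X ^ (c - 1 - 1 - j) := by
    intro j hj
    have h1 : X ^ (c - 1) * Xi ^ (j + 1) = X ^ (c - 1 - 1 - j) := by
      have h2 : c - 1 = (c - 1 - 1 - j) + (j + 1) := by omega
      calc X ^ (c - 1) * Xi ^ (j + 1)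
          = X ^ ((c - 1 - 1 - j) + (j + 1)) * Xi ^ (j + 1) := by rw [← h2]
        _ = X ^ (c - 1 - 1 - j) := by rw [pow_add, mul_assoc, pow_mul_inv hXi, mul_one]
    rw [mul_assoc (X ^ j), hxm, ← mul_assoc (X ^ j), mul_assoc, h1]
  refine ⟨⟨?_, ?_, ?_, ?_, ?_, ?_, ?_, ?_, ?_, ?_⟩, ⟨by omega, ?_, ?_⟩, ?_, ?_⟩
  · rw [add_zero]
    exact Submodule.pow_mem_pow W hP.hy _
  · rw [mul_assoc, hxm, hmx, mul_assoc]
  · rw [pow_zero, one_mul, mul_one, ← pow_succ, ← pow_succ']
  · intro i hi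
    refine ⟨Or.inl rfl, ?_, ?_⟩
    · rw [mul_assoc _ x, hxm, ← mul_assoc, hP.hxx _ (by omega), zero_mul]
    · rw [hmx, mul_assoc, mul_assoc, ← mul_assoc x, hP.hxx _ (by omega), mul_zero]
  · intro i hi
    omega
  · intro _
    rfl
  · intro h
    omega
  · intro j hj
    rw [hw j hj, add_zero, show c - 1 = j + 1 + (c - 1 - 1 - j) by omega, pow_add, pow_add,
      pow_one]
    apply Submodule.mul_mem_mul
    · exact Submodule.mul_mem_mul (Submodule.pow_mem_pow W hFl.hX _) hP.hx
    · rw [show j + 1 + (c - 1 - 1 - j) - 1 - j = c - 1 - 1 - j by omega]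
      exact Submodule.pow_mem_pow W hFl.hX _
  · intro j hj
    omega
  · intro U hm hU _ A hA
    rw [add_zero] at hA
    have hW : W ≤ Submodule.span ℂ {X, x} := by
      refine hP.hW.trans ?_
      rw [Submodule.span_le]
      rintro z (rfl | rfl)
      · exact Submodule.subset_span (by simp)
      · rw [SetLike.mem_coe, Submodule.mem_span_pair]
        exact ⟨1, -1, by rw [one_smul, neg_smul, one_smul, ← hP.hxy]; abel⟩
    have hterm : ∀ j, j < c - 1 → X ^ (c - 1 - 1 - j) * x * X ^ j ∈ U := by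
      intro j hj
      have h1 := hU (c - 1 - 1 - j) (by omega)
      rw [hw _ (by omega), show c - 1 - 1 - (c - 1 - 1 - j) = j by omega] at h1
      exact h1
    have hXm : X ^ (c - 1) ∈ U := by
      have h1 : X ^ (c - 1) = y ^ (c - 1) +
          ∑ j ∈ Finset.range (c - 1), X ^ (c - 1 - 1 - j) * x * X ^ j := by
        rw [hpw]; abel
      rw [h1]
      apply U.add_mem hm
      apply Submodule.sum_mem
      intro j hj
      rw [Finset.mem_range] at hj
      exact hterm j hj
    obtain ⟨h1, -⟩ := Y297.MPS.Basis D W X x hFl hP.hx hW (c - 1) (by omega)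
    obtain ⟨a, b, rfl⟩ := h1 A hA
    apply U.add_mem
    · apply Submodule.sum_mem
      intro j hj
      rw [Finset.mem_range] at hj
      exact U.smul_mem _ (hterm j hj)
    · exact U.smul_mem _ hXm
  · intro _
    refine ⟨fun _ _ => rfl, rfl, fun s hs => by omega⟩
  · intro h
    omega
  · rw [add_zero, ht, ← mul_assoc, hmx, mul_assoc]
  · intro j hj
    left
    rw [ht, ← mul_assoc, hP.hxx _ (by omega), zero_mul]

end Pool.Agent.Y659.MPS
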