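import Mathlib
import Pool.Agent.Y659.MPS.Stm

namespace Pool.Agent.Y659.MPS

open Matrix
open Pool.Agent.Results.MP_8bfff4_mp.ExactValue

section symm

variable {D : ℕ} {W : Submodule ℂ (Matrix (Fin D) (Fin D) ℂ)}
  {X Xi x y m t : Matrix (Fin D) (Fin D) ℂ} {p q : ℕ}
  {la lb : ℕ → Matrix (Fin D) (Fin D) ℂ}

theorem Lev.symm (h : Lev W X Xi x y m p q la lb) : Lev W X Xi y x m q p lb la where
  hm := by rw [add_comm]; exact h.hm
  cx := h.cy
  cy := h.cx
  ha := fun i hi => ⟨(h.hb i hi).1.symm, (h.hb i hi).2⟩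
  hb := fun i hi => ⟨(h.ha i hi).1.symm, (h.ha i hi).2⟩
  la0 := h.lb0
  lb0 := h.la0
  ia := by rw [add_comm]; exact h.ib
  ib := by rw [add_comm]; exact h.ia
  sp := by
    intro U h1 h2 h3
    rw [add_comm]
    exact h.sp U h1 h3 h2

theorem Inv.symm (h : Inv x y p q la lb) : Inv y x q p lb la :=
  ⟨h.1.symm, h.2.2, h.2.1⟩

theorem Lt.symm (h : Lt X x y m t p q) : Lt X y x m t q p := by
  refine ⟨by rw [add_comm]; exact h.1, fun j hj => (h.2 j (by omega)).symm⟩

end symm

theorem StepInv : St_StepInv := by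
  intro D x y p q la lb ⟨hpq, h1, h2⟩
  refine ⟨by omega, fun _ => ⟨?_, ?_, ?_⟩, fun h => by omega⟩
  · intro i hi
    unfold stepLa
    rw [if_pos (show i < p by omega)]
    rcases lt_trichotomy (i + q + 1) p with h | h | h
    · rw [if_pos h]
      exact (h1 (by omega)).1 i h
    · rw [if_neg (by omega), if_pos h]
      rw [← (h1 (by omega)).2.1]
      congr 1
      omega
    · rw [if_neg (by omega), if_neg (by omega)]
      rcases Nat.lt_or_ge q p with hq | hq
      · have := (h1 hq).2.2 (i + q - p) (by omega)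
        rw [show p - q + (i + q - p) = i by omega] at this
        rw [this]
        congr 1
        omega
      · have := (h2 (by omega)).2.2 i (by omega)
        rw [← this]
        congr 1
        omega
  · unfold stepLa
    rw [if_neg (by omega), if_pos (by omega)]
  · intro s hs
    unfold stepLa
    rw [if_neg (by omega), if_neg (by omega)]
    congr 1
    omega

theorem StepLt : St_StepLt := by
  intro D W X Xi x y m t v₁ v₂ p q la lb hxy ht1 ht2 hL hx ⟨h1, h2⟩
  have hyx : y = X - x := by rw [← hxy]; abel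
  have h3 : x * X ^ (p + q) * t = 0 := by
    rw [mul_assoc, ← h1, ht1]
    simp only [← mul_assoc]
    rw [hx, zero_mul]
  have h4 : y * X ^ (p + q) * t = X ^ (p + q + 1) * t := by
    rw [hyx, sub_mul, sub_mul, h3, sub_zero, ← pow_succ']
  refine ⟨?_, ?_⟩
  · rw [mul_assoc, h1, ← mul_assoc, mul_assoc (X ^ q) y, mul_assoc (X ^ q), h4, ← mul_assoc,
      ← pow_add]
    congr 2
    ring
  · intro j hj
    rcases lt_trichotomy j (p + q) with h | h | h
    · exact h2 j h
    · left
      rw [h]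
      exact h3
    · obtain ⟨i, rfl⟩ : ∃ i, j = i + (p + q + 1) := ⟨j - (p + q + 1), by omega⟩
      have h5 := (hL.hb i (by omega)).2.1
      have h6 : lb i * X ^ (i + (p + q + 1)) * t = 0 := by
        rw [pow_add, mul_assoc, mul_assoc, ← h4, mul_assoc y, ← h1]
        have : lb i * (X ^ i * (y * (m * t))) = lb i * X ^ i * y * m * t := by
          simp only [mul_assoc]
        rw [this, h5, zero_mul]
      rcases (hL.hb i (by omega)).1 with h7 | h7
      · left; rw [← h7]; exact h6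
      · right; rw [← h7]; exact h6

theorem Fin1 : St_Fin1 := by
  intro D W X Xi x y m t v₁ v₂ p q c cxy cyy α β la lb hXi hiX hxy hp hq hL ht1 ht2 hR hxt hyt
    hc hα hβ
  obtain ⟨hne, -, hR⟩ := hR
  have h1 : ∑ j ∈ Finset.Icc 1 p, α j • (X ^ j * x * m * Xi ^ (j - 1)) = 0 := by
    apply Finset.sum_eq_zero
    intro j hj
    rw [Finset.mem_Icc] at hj
    rw [hα j hj.1 hj.2, zero_smul]
  have h2 : ∑ j ∈ Finset.Icc 1 q, β j • (X ^ j * y * m * Xi ^ (j - 1)) = 0 := by
    apply Finset.sum_eq_zero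
    intro j hj
    rw [Finset.mem_Icc] at hj
    rw [hβ j hj.1 hj.2, zero_smul]
  rw [h1, h2, hc, zero_smul, zero_add, add_zero, add_zero] at hR
  have hyy : y * y * m = 0 := by
    have := (hL.hb 0 hq).2.1
    rw [hL.lb0 hq, pow_zero, mul_one] at this
    exact this
  have hxx : x * x * m = 0 := by
    have := (hL.ha 0 hp).2.1
    rw [hL.la0 hp, pow_zero, mul_one] at this
    exact this
  have hcxy : cxy = 0 := by
    by_contra hcxy
    have h3 := congrArg (fun z => y * z) hR
    simp only [mul_add, mul_smul_comm, mul_zero] at h3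
    have h4 : y * (y * m * y) = 0 := by
      rw [← mul_assoc, ← mul_assoc, hyy, zero_mul]
    rw [h4, smul_zero, add_zero, smul_eq_zero] at h3
    have h5 := h3.resolve_left hcxy
    have h6 : x * (x * m * y) = 0 := by
      rw [← mul_assoc, ← mul_assoc, hxx, zero_mul]
    have h7 : X * (x * m * y) = 0 := by rw [← hxy, add_mul, h5, h6, add_zero]
    have h8 : x * m * y = 0 := by
      calc x * m * y = Xi * (X * (x * m * y)) := by rw [← mul_assoc, hiX, one_mul]
        _ = 0 := by rw [h7, mul_zero]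
    apply hxt
    rw [ht2, ← mul_assoc, ← mul_assoc, h8, zero_mul]
  rw [hcxy, zero_smul, zero_add, smul_eq_zero] at hR
  rcases hR with h | h
  · exfalso
    rcases hne with h3 | h3 | h3 | ⟨j, h3, h4, h5⟩ | ⟨j, h3, h4, h5⟩
    · exact h3 hc
    · exact h3 hcxy
    · exact h3 h
    · exact h5 (hα j h3 h4)
    · exact h5 (hβ j h3 h4)
  · exact h

/-- assembly of the key lemma -/
theorem KL (hA : St_KLA) (hG : St_KLG) (hE : St_KLE) (h1 : St_Core1) (h2 : St_Core2)
    (hF : St_Fin2) : St_KL := by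
  -- first the case of a relation with `y` dead
  have key : ∀ (D : ℕ) (W : Submodule ℂ (Matrix (Fin D) (Fin D) ℂ))
    (u : (Matrix (Fin D) (Fin D) ℂ)ˣ) (x y m t v₁ v₂ : Matrix (Fin D) (Fin D) ℂ) (p q N : ℕ)
    (la lb : ℕ → Matrix (Fin D) (Fin D) ℂ) (c cxy cyy : ℂ) (α β : ℕ → ℂ), 2 ≤ D →
    W ^ N = ⊤ → W ≤ Submodule.span ℂ {x, y} → x + y = (u : Matrix (Fin D) (Fin D) ℂ) →
    1 ≤ p → 1 ≤ q →
    Lev W (u : Matrix (Fin D) (Fin D) ℂ)
      ((u⁻¹ : (Matrix (Fin D) (Fin D) ℂ)ˣ) : Matrix (Fin D) (Fin D) ℂ) x y m p q la lb →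
    Inv x y p q la lb → t ≠ 0 → t = x * v₁ → t = y * v₂ →
    Lt (u : Matrix (Fin D) (Fin D) ℂ) x y m t p q →
    Rel (u : Matrix (Fin D) (Fin D) ℂ)
      ((u⁻¹ : (Matrix (Fin D) (Fin D) ℂ)ˣ) : Matrix (Fin D) (Fin D) ℂ) x y m p q c cxy cyy α β →
    x * m * x = 0 ∨ y * m * y = 0 := by
    intro D W u x y m t v₁ v₂ p q N la lb c cxy cyy α β hD hN hW hxy hp hq hL hI ht0 ht1 ht2 hLt
      hR
    obtain ⟨g1, g2, g3, g4⟩ := hG D W u x y m t v₁ v₂ p q la lb hxy hL ht1 ht2
    have hcore : Core (u : Matrix (Fin D) (Fin D) ℂ) x y (G u m t) p q c cxy cyy α β :=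
      ⟨hp, hq, hI.1, Units.isUnit u, hxy, g1, g2, g3, g4 c cxy cyy α β hR, hR.2.1⟩
    have hG0 : G u m t 0 = m * t := by
      unfold G
      rw [zpow_zero, Units.val_one, mul_one]
    have hf0 : m * t ≠ 0 := by
      rw [hLt.1]
      intro h
      apply ht0
      have h3 : ((u⁻¹ ^ (p + q) : (Matrix (Fin D) (Fin D) ℂ)ˣ) : Matrix (Fin D) (Fin D) ℂ) *
          ((u : Matrix (Fin D) (Fin D) ℂ) ^ (p + q) * t) = t := by
        rw [← mul_assoc, ← Units.val_pow_eq_pow_val, ← Units.val_mul, inv_pow, inv_mul_cancel,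
          Units.val_one, one_mul]
      rw [← h3, h, mul_zero]
    have hXf : x * (m * t) + y * (m * t) ≠ 0 := by
      rw [← add_mul, hxy]
      intro h
      apply hf0
      calc m * t = ((u⁻¹ : (Matrix (Fin D) (Fin D) ℂ)ˣ) : Matrix (Fin D) (Fin D) ℂ) *
          ((u : Matrix (Fin D) (Fin D) ℂ) * (m * t)) := by
            rw [← mul_assoc, Units.inv_mul, one_mul]
        _ = 0 := by rw [h, mul_zero]
    have hiX : ((u⁻¹ : (Matrix (Fin D) (Fin D) ℂ)ˣ) : Matrix (Fin D) (Fin D) ℂ) *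
        (u : Matrix (Fin D) (Fin D) ℂ) = 1 := Units.inv_mul u
    have hXi : (u : Matrix (Fin D) (Fin D) ℂ) *
        ((u⁻¹ : (Matrix (Fin D) (Fin D) ℂ)ˣ) : Matrix (Fin D) (Fin D) ℂ) = 1 := Units.mul_inv u
    have hyy : y * y * m = 0 := by
      have := (hL.hb 0 hq).2.1
      rw [hL.lb0 hq, pow_zero, mul_one] at this
      exact this
    have hxx : x * x * m = 0 := by
      have := (hL.ha 0 hp).2.1
      rw [hL.la0 hp, pow_zero, mul_one] at this
      exact this
    by_cases hyf : y * (m * t) = 0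
    · right
      have hxf : x * (m * t) ≠ 0 := by
        intro h
        apply hXf
        rw [h, hyf, add_zero]
      obtain ⟨i, hi⟩ := hE D W u x y m t v₁ v₂ p q N la lb hD hp hq hN hW hxy hL ht0 ht1 ht2 hLt
      obtain ⟨e1, e2, e3⟩ := h1 D _ x y _ p q c cxy cyy α β hcore (by rw [hG0]; exact hxf)
        (by rw [hG0]; exact hyf) ⟨i, hi⟩
      exact Fin1 D W _ _ x y m t v₁ v₂ p q c cxy cyy α β la lb hXi hiX hxy hp hq hL ht1 ht2 hR
        hxf hyf e1 e2 e3
    · by_contra hcon
      push Not at hcon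
      have hL' := hL.symm
      obtain ⟨i, hi⟩ := hE D W u y x m t v₂ v₁ q p N lb la hD hq hp hN
        (by rw [Set.pair_comm]; exact hW) (by rw [add_comm]; exact hxy) hL' ht0 ht2 ht1 hLt.symm
      obtain ⟨e1, e2, j, hj, hj2⟩ := h2 D _ x y _ p q c cxy cyy α β hcore (by rw [hG0]; exact hyf)
        (by
          rw [hG0]
          intro hxf r s hrs
          have f1 : y * (x * (m * t)) = 0 → False := by
            intro h
            have f2 : x * (x * (m * t)) = 0 := by
              rw [← mul_assoc, ← mul_assoc, hxx, zero_mul]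
            have f3 : (u : Matrix (Fin D) (Fin D) ℂ) * (x * (m * t)) = 0 := by
              rw [← hxy, add_mul, f2, h, add_zero]
            apply hxf
            have f7 := congrArg (fun z => ((u⁻¹ : (Matrix (Fin D) (Fin D) ℂ)ˣ) :
              Matrix (Fin D) (Fin D) ℂ) * z) f3
            simp only [mul_zero] at f7
            rw [← mul_assoc _ (u : Matrix (Fin D) (Fin D) ℂ), hiX, one_mul] at f7
            exact f7
          have f4 : y * (y * (m * t)) = 0 := by
            rw [← mul_assoc, ← mul_assoc, hyy, zero_mul]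
          have f5 := congrArg (fun z => y * z) hrs
          simp only [mul_add, mul_smul_comm, mul_zero, f4, smul_zero, add_zero] at f5
          have f6 : r = 0 := by
            rcases smul_eq_zero.1 f5 with h | h
            · exact h
            · exact absurd h f1
          refine ⟨f6, ?_⟩
          rw [f6, zero_smul, zero_add, smul_eq_zero] at hrs
          exact hrs.resolve_right hyf) ⟨i, hi⟩
      have e3 := hF D W _ _ x y m p q c cxy cyy α β la lb hXi hiX hxy hp hq hL hI hR e1 e2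
        hcon.1 hcon.2
      rcases Nat.eq_zero_or_pos j with h0 | h0
      · subst h0
        apply hj
        rw [Nat.cast_zero, zero_mul, hG0, ht2, ← mul_assoc, ← mul_assoc, e3, zero_mul]
      · apply hj
        rw [hj2 h0]
        unfold G
        have e4 : x * (u : Matrix (Fin D) (Fin D) ℂ) ^ q * y * m = 0 := by
          rw [mul_assoc x, mul_assoc x, hL.cy, ← mul_assoc, ← mul_assoc, e3, zero_mul]
        rw [← mul_assoc, ← mul_assoc, e4, zero_mul, zero_mul]
  intro D W X Xi x y m t v₁ v₂ p q la lb hFl hx hy hW hXi hiX hxy hp hq hpq hL hI ht0 ht1 ht2 hLt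
  obtain ⟨N, hN⟩ := hFl.hN
  set u : (Matrix (Fin D) (Fin D) ℂ)ˣ := ⟨X, Xi, hXi, hiX⟩ with hu
  have hu1 : (u : Matrix (Fin D) (Fin D) ℂ) = X := rfl
  have hu2 : ((u⁻¹ : (Matrix (Fin D) (Fin D) ℂ)ˣ) : Matrix (Fin D) (Fin D) ℂ) = Xi := rfl
  rcases hA D W X Xi x y m p q la lb hFl hx hy hXi hiX hxy hp hq hpq hL with
    ⟨c, cxy, cyy, α, β, hR⟩ | ⟨c, cxy, cyy, α, β, hR⟩
  · exact key D W u x y m t v₁ v₂ p q N la lb c cxy cyy α β hFl.hD hN hW hxy hp hq hL hI ht0 ht1
      ht2 hLt hR
  · exact (key D W u y x m t v₂ v₁ q p N lb la c cxy cyy α β hFl.hD hN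
      (by rw [Set.pair_comm]; exact hW) (by rw [add_comm]; exact hxy) hq hp hL.symm hI.symm ht0
      ht2 ht1 hLt.symm hR).symm

end Pool.Agent.Y659.MPS
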