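import Mathlib
import Pool.Agent.Y659.MPS.Step

namespace Pool.Agent.Y659.MPS

open Matrix
open Pool.Agent.Results.MP_8bfff4_mp.ExactValue

/-- in the small range `W ^ (n+1)` is generated by `X` on both sides -/
theorem Flat.le {D : ℕ} {W : Submodule ℂ (Matrix (Fin D) (Fin D) ℂ)}
    {X : Matrix (Fin D) (Fin D) ℂ} (h : Flat W X) {n : ℕ} (h1 : 1 ≤ n) (h2 : n + 1 ≤ D) :
    W ^ (n + 1) ≤ ln X * W ^ n ⊔ W ^ n * ln X := by
  have h3 : ln X * W ^ n ⊔ W ^ n * ln X ≤ W ^ (n + 1) := by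
    apply sup_le
    · rw [pow_succ']; exact mul_le_mul' (ln_le.2 h.hX) le_rfl
    · rw [pow_succ]; exact mul_le_mul' le_rfl (ln_le.2 h.hX)
  have h4 := h.he n h1 (by omega)
  have h5 := h.hd (n + 1) h2
  exact (eq_of_le_of_fr_le h3 (by omega)).ge

/-- one step, or the end -/
theorem step_or_end (hLev : St_StepLev) {D : ℕ} {W : Submodule ℂ (Matrix (Fin D) (Fin D) ℂ)}
    {X Xi x y m t v₁ v₂ : Matrix (Fin D) (Fin D) ℂ} {p q : ℕ}
    {la lb : ℕ → Matrix (Fin D) (Fin D) ℂ} (hFl : Flat W X) (hx : x ∈ W) (hy : y ∈ W)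
    (hXi : X * Xi = 1) (hiX : Xi * X = 1) (hxy : x + y = X)
    (ht1 : t = x * v₁) (ht2 : t = y * v₂)
    (hend : (∀ j, j + 2 ≤ D → x * X ^ j * t = 0 ∨ y * X ^ j * t = 0) → False)
    (hq : 1 ≤ q) (hL : Lev W X Xi x y m p q la lb) (hI : Inv x y p q la lb)
    (hLt : Lt X x y m t p q) (hxx : x * m * x = 0)
    (hrec : ∀ (p' q' : ℕ) (m' : Matrix (Fin D) (Fin D) ℂ)
      (la' lb' : ℕ → Matrix (Fin D) (Fin D) ℂ), p + q < p' + q' → 1 ≤ p' → 1 ≤ q' →
      p' + q' + 2 ≤ D → Lev W X Xi x y m' p' q' la' lb' → Inv x y p' q' la' lb' →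
      Lt X x y m' t p' q' → False) : False := by
  have hLt' := StepLt D W X Xi x y m t v₁ v₂ p q la lb hxy ht1 ht2 hL hxx hLt
  by_cases hD : p + q + 1 + q + 2 ≤ D
  · apply hrec (p + q + 1) q (X ^ q * y * m) (stepLa x p la lb) lb (by omega) (by omega) hq hD
      _ (StepInv D x y p q la lb hI) hLt'
    apply hLev D W X Xi x y m p q la lb hFl.hX hx hy hXi hiX hxy (by omega) _ hL hxx
    intro k h1 h2
    exact hFl.le (by omega) (by omega)
  · apply hend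
    intro j hj
    exact hLt'.2 j (by omega)

/-- no level exists -/
theorem levels (hLev : St_StepLev) (hKL : St_KL) : ∀ (k : ℕ) (D : ℕ)
    (W : Submodule ℂ (Matrix (Fin D) (Fin D) ℂ))
    (X Xi x y m t v₁ v₂ : Matrix (Fin D) (Fin D) ℂ) (p q : ℕ)
    (la lb : ℕ → Matrix (Fin D) (Fin D) ℂ), Flat W X → x ∈ W → y ∈ W →
    W ≤ Submodule.span ℂ {x, y} → X * Xi = 1 → Xi * X = 1 → x + y = X → t ≠ 0 →
    t = x * v₁ → t = y * v₂ →
    ((∀ j, j + 2 ≤ D → x * X ^ j * t = 0 ∨ y * X ^ j * t = 0) → False) →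
    D ≤ p + q + k → 1 ≤ p → 1 ≤ q → p + q + 2 ≤ D → Lev W X Xi x y m p q la lb →
    Inv x y p q la lb → Lt X x y m t p q → False := by
  intro k
  induction k with
  | zero =>
    intro D W X Xi x y m t v₁ v₂ p q la lb _ _ _ _ _ _ _ _ _ _ _ h1 _ _ h2
    omega
  | succ k ih =>
    intro D W X Xi x y m t v₁ v₂ p q la lb hFl hx hy hW hXi hiX hxy ht0 ht1 ht2 hend hk hp hq hD
      hL hI hLt
    rcases hKL D W X Xi x y m t v₁ v₂ p q la lb hFl hx hy hW hXi hiX hxy hp hq hD hL hI ht0 ht1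
      ht2 hLt with h | h
    · apply step_or_end hLev hFl hx hy hXi hiX hxy ht1 ht2 hend hq hL hI hLt h
      intro p' q' m' la' lb' h1 h2 h3 h4 h5 h6 h7
      exact ih D W X Xi x y m' t v₁ v₂ p' q' la' lb' hFl hx hy hW hXi hiX hxy ht0 ht1 ht2 hend
        (by omega) h2 h3 h4 h5 h6 h7
    · have hyx : y + x = X := by rw [add_comm]; exact hxy
      have hend' : (∀ j, j + 2 ≤ D → y * X ^ j * t = 0 ∨ x * X ^ j * t = 0) → False :=
        fun h => hend fun j hj => (h j hj).symm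
      apply step_or_end hLev hFl hy hx hXi hiX hyx ht2 ht1 hend' hp hL.symm hI.symm hLt.symm h
      intro p' q' m' la' lb' h1 h2 h3 h4 h5 h6 h7
      exact ih D W X Xi y x m' t v₂ v₁ p' q' la' lb' hFl hy hx
        (by rw [Set.pair_comm]; exact hW) hXi hiX hyx ht0 ht2 ht1 hend' (by omega) h2 h3 h4 h5
        h6 h7

/-- no pair in normal form -/
theorem pair_false (hLev : St_StepLev) (hKL : St_KL) (hSt : St_Start) (hS5 : St_S5) (hT : St_T)
    {D : ℕ} {W : Submodule ℂ (Matrix (Fin D) (Fin D) ℂ)} {X x y : Matrix (Fin D) (Fin D) ℂ}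
    {c : ℕ} (hFl : Flat W X) (hR : RankSum W) (hP : Pair W X x y c) : False := by
  obtain ⟨t, v₁, v₂, ht0, ht1, ht2⟩ := hT D x y (hR x hP.hx y hP.hy hP.hx0 hP.hy0 hP.hW)
  obtain ⟨N, hN⟩ := hFl.hN
  have hend : (∀ j, j + 2 ≤ D → x * X ^ j * t = 0 ∨ y * X ^ j * t = 0) → False :=
    hS5 D W X x y t v₁ v₂ c N hP.hc2 hP.hcD hFl.hXu hP.hxy hP.hW hN hP.hxx hP.hyc ht0 ht1 ht2
  obtain ⟨u, hu⟩ := hFl.hXu
  obtain ⟨Xi, hXi, hiX⟩ : ∃ Xi, X * Xi = 1 ∧ Xi * X = 1 :=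
    ⟨((u⁻¹ : (Matrix (Fin D) (Fin D) ℂ)ˣ) : Matrix (Fin D) (Fin D) ℂ),
      by rw [← hu]; exact Units.mul_inv u, by rw [← hu]; exact Units.inv_mul u⟩
  obtain ⟨hL, hI, hLt⟩ := hSt D W X Xi x y t v₁ c hFl hXi hiX hP ht1
  have hyx : y + x = X := by rw [add_comm]; exact hP.hxy
  have hend' : (∀ j, j + 2 ≤ D → y * X ^ j * t = 0 ∨ x * X ^ j * t = 0) → False :=
    fun h => hend fun j hj => (h j hj).symm
  have hc2 := hP.hc2
  apply step_or_end hLev hFl hP.hy hP.hx hXi hiX hyx ht2 ht1 hend' (by omega) hL.symm hI.symm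
    hLt.symm
  · rw [← pow_succ', ← pow_succ, show c - 1 + 1 + 1 = c + 1 by omega]
    exact hP.hyc
  · intro p' q' m' la' lb' h1 h2 h3 h4 h5 h6 h7
    exact levels hLev hKL D D W X Xi y x m' t v₂ v₁ p' q' la' lb' hFl hP.hy hP.hx
      (by rw [Set.pair_comm]; exact hP.hW) hXi hiX hyx ht0 ht2 ht1 hend' (by omega) h2 h3 h4 h5
      h6 h7

/-- the normal form -/
theorem S3 (hB : St_Basis) (hA : St_S3A) (hB3 : St_S3B) (hC : St_S3C) : St_S3 := by
  intro D W X w hFl hR hw hW hw0 hww hrk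
  obtain ⟨N, hN⟩ := hFl.hN
  have hN1 : W ^ (N + 1) = ⊤ := by
    rw [eq_top_iff]
    intro Z _
    obtain ⟨u, hu⟩ := hFl.hXu
    have h1 : Z = (u : Matrix (Fin D) (Fin D) ℂ) *
        (((u⁻¹ : (Matrix (Fin D) (Fin D) ℂ)ˣ) : Matrix (Fin D) (Fin D) ℂ) * Z) := by
      rw [← mul_assoc, Units.mul_inv, one_mul]
    rw [h1, pow_succ', hu]
    exact Submodule.mul_mem_mul hFl.hX (by rw [hN]; trivial)
  obtain ⟨c, hc2, hcD, hci, hcc⟩ := hA D W X w N hFl.hX hFl.hXu hN hw hW hw0 hww hrk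
  obtain ⟨h1, -⟩ := hB D W X w hFl hw hW (c + 1) (by omega)
  obtain ⟨-, h2⟩ := hB D W X w hFl hw hW (c + 2) (by omega)
  have hP : w * X ^ (c - 1) * w ∈ W ^ (c + 1) := by
    rw [show c + 1 = (c - 1) + 1 + 1 by omega, pow_succ, pow_succ']
    exact Submodule.mul_mem_mul (Submodule.mul_mem_mul hw (Submodule.pow_mem_pow W hFl.hX _)) hw
  obtain ⟨a, α, hrel⟩ := h1 _ hP
  simp only [show c + 1 - 1 = c by omega] at hrel
  simp only [show c + 2 - 1 = c + 1 by omega] at h2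
  have hα : α ≠ 0 := by
    intro hα
    rw [hα, zero_smul, add_zero] at hrel
    exact hC D W X w (N + 1) c a hFl.hX hFl.hXu (by omega) hN1 hR hw hW hw0 hc2 hci hcc hrel
  obtain ⟨s, hs0, hs⟩ := hB3 D X w c a α hFl.hXu hw0 hc2 hci h2 hrel hα
  refine ⟨s • w, X - s • w, c, ?_⟩
  refine ⟨by abel, W.smul_mem _ hw, W.sub_mem hFl.hX (W.smul_mem _ hw), ?_, ?_, ?_, hc2, hcD, ?_,
    hs⟩
  · exact smul_ne_zero hs0 hw0
  · intro h
    rw [sub_eq_zero] at h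
    have h3 : X * X = 0 := by
      rw [h, smul_mul_assoc, mul_smul_comm, hww, smul_zero, smul_zero]
    apply hw0
    have h4 := hFl.hXu
    have h5 : X = 0 := (h4.mul_left_eq_zero).1 h3
    rw [h5] at h
    rcases smul_eq_zero.1 h.symm with h6 | h6
    · exact absurd h6 hs0
    · exact h6
  · refine hW.trans ?_
    rw [Submodule.span_le]
    rintro z (rfl | rfl)
    · rw [SetLike.mem_coe, Submodule.mem_span_pair]
      exact ⟨1, 1, by rw [one_smul, one_smul]; abel⟩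
    · rw [SetLike.mem_coe, Submodule.mem_span_pair]
      exact ⟨s⁻¹, 0, by rw [zero_smul, add_zero, smul_smul, inv_mul_cancel₀ hs0, one_smul]⟩
  · intro i hi
    rw [smul_mul_assoc, smul_mul_assoc, mul_smul_comm, hci i hi, smul_zero, smul_zero]

end Pool.Agent.Y659.MPS
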