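import Mathlib
import Pool.Agent.Y659.MPS.Asm
import Pool.Agent.Results.MP_4e951d_mp.ThreeAndFour

namespace Pool.Agent.Y659.MPS

open Matrix
open Pool.Agent.Results.MP_8bfff4_mp.ExactValue
open Pool.Agent.Results.MP_4e951d_mp.IndexWithinOne
open Pool.Agent.Results.MP_4e951d_mp.ThreeAndFour
open Pool.Agent.H979N

/-- `W` is spanned by a unit and a nonunit -/
theorem le_span_unit {D : ℕ} {W : Submodule ℂ (Matrix (Fin D) (Fin D) ℂ)}
    {X B : Matrix (Fin D) (Fin D) ℂ} (hD : 1 ≤ D) (h2 : fr W ≤ 2) (hX : X ∈ W) (hXu : IsUnit X)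
    (hB : B ∈ W) (hB0 : B ≠ 0) (hBB : B * B = 0) : W ≤ Submodule.span ℂ {X, B} := by
  have hX0 : X ≠ 0 := by
    intro h
    rw [h] at hXu
    have : Nontrivial (Matrix (Fin D) (Fin D) ℂ) := ⟨⟨B, 0, hB0⟩⟩
    exact not_isUnit_zero hXu
  have hli : LinearIndependent ℂ ![X, B] := by
    rw [LinearIndependent.pair_iff]
    intro s t h
    have h1 : s • (X * B) = 0 := by
      have := congrArg (fun z => z * B) h
      simp only [add_mul, smul_mul_assoc, hBB, smul_zero, add_zero, zero_mul] at this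
      exact this
    have hs : s = 0 := by
      rcases smul_eq_zero.1 h1 with h2 | h2
      · exact h2
      · exact absurd ((hXu.mul_right_eq_zero).1 h2) hB0
    refine ⟨hs, ?_⟩
    rw [hs, zero_smul, zero_add, smul_eq_zero] at h
    exact h.resolve_right hB0
  have h3 := finrank_span_eq_card hli
  have h4 : Submodule.span ℂ {X, B} ≤ W := by
    rw [Submodule.span_le]
    rintro z (rfl | rfl)
    · exact hX
    · exact hB
  rw [Matrix.range_cons, Matrix.range_cons, Matrix.range_empty, Set.union_empty,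
    Set.singleton_union] at h3
  refine (eq_of_le_of_fr_le h4 ?_).ge
  show fr W ≤ Module.finrank ℂ (Submodule.span ℂ {X, B})
  rw [h3]
  simpa using h2

/-- no exceptional tuple -/
theorem upper (hEQ : St_EQ) (hU1 : St_U1) (hB : St_Basis) (hA : St_S3A) (hB3 : St_S3B)
    (hC : St_S3C) (hLev : St_StepLev) (hKL : St_KL) (hSt : St_Start) (hS5 : St_S5) (hT : St_T)
    {D d : ℕ} (hD : 5 ≤ D) {A : Fin d → Matrix (Fin D) (Fin D) ℂ} (hNA : Normal A) :
    injIndex A ≤ D ^ 2 - D + 1 := by
  by_contra hcon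
  have hcase : D ^ 2 - D + 1 < injIndex A := by omega
  obtain ⟨Y, hY, hYu, hN, htop, hmin, htr⟩ := setup (by omega) hNA hcase
  have hfr2 := fr_le_two (by omega) hNA hcase
  have hrk := fun B hB hB0 => rank_ge_two (B := B) (by omega) hNA hcase hB hB0
  rw [hN] at htop hmin
  generalize Submodule.span ℂ (Set.range A) = W at *
  have hDD5 : 5 * D ≤ D * D := Nat.mul_le_mul_right D hD
  obtain ⟨-, hex, hun⟩ := H780W.exception (by omega) hY hYu htop hmin (by omega)
  have hfrK := fr_of_rank_one (by omega) hex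
  have hgrow := H780W.grow_unit (by omega) hY hYu htop hmin
  have hmany := grow_many (by omega) hY hYu htop hmin
  have h1 : 2 ≤ fr W := by
    have := hgrow 1 (by omega)
    rwa [pow_one] at this
  -- a good unit
  obtain ⟨P, -, ⟨s, hsW, hPs⟩, hP3⟩ := generic_unit hY hYu (D * D - D + 1) hun
  obtain ⟨h4, h5⟩ := hP3 s hPs
  have hu : IsUnit (s 0) := isUnit_of_fr (le_antisymm (fr_le _) h4)
  have hX := hsW 0
  generalize s 0 = X at *
  have hExc : Exc W X := ⟨hD, hX, hu, htop, hmin, h5⟩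
  have hEQ' := hEQ D W X hExc
  have hbd : ∀ n, n ≤ D * D - D + 1 → fr (W ^ n) + 2 ≤ n + D := by
    intro n hn
    have h6 := hmany n (D * D - D + 1 - n) (by omega)
    rw [show n + (D * D - D + 1 - n) = D * D - D + 1 by omega] at h6
    have h7 : fr (W ^ (D * D - D + 1)) < D * D := by
      rcases lt_or_eq_of_le (fr_le (W ^ (D * D - D + 1))) with h | h
      · exact h
      · exfalso
        apply hmin (D * D - D + 1) (by omega)
        apply eq_of_le_of_fr_le le_top
        rw [fr_top, h]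
    omega
  have hd := hU1 D W X hExc (fun n h1 h2 => (hEQ' n h1 h2).2) hbd
  have hFl : Flat W X := by
    refine ⟨by omega, hX, hu, hd, ?_, ⟨_, htop⟩⟩
    intro n h1 h2
    rw [(hEQ' n h1 (by omega)).1, hd n h2]
  have hRS : RankSum W := by
    intro v hv w hw hv0 hw0 hvw
    exact rank_sum (K := D * D - D) htr hfrK hv hw hv0 hw0 hvw
  obtain ⟨X1, hX1, Z1, hZ1, hW1⟩ := exists_pair (le_antisymm hfr2 h1)
  rcases dichotomy hX1 hZ1 hW1 (indep_of_fr h1 hW1) (by rw [hd 2 (by omega)]) with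
    h | ⟨B, hBW, hB0, hBB⟩
  · have h7 := typeI_count h (D * D - D + 1)
    omega
  · obtain ⟨x, y, c, hP⟩ := S3 hB hA hB3 hC D W X B hFl hRS hBW
      (le_span_unit (by omega) hfr2 hX hu hBW hB0 hBB) hB0 hBB (hrk B hBW hB0)
    exact pair_false hLev hKL hSt hS5 hT hFl hRS hP

end Pool.Agent.Y659.MPS
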